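import Pool.Agent.X161.CE.ChkA
import Pool.Agent.X161.CE.ChkB
import Pool.Agent.X161.CE.ChkC
import Pool.Agent.X161.CE.ChkD

/-!
# A non-shellable complex with a convex ear decomposition

The complex is three-dimensional.  Start with a simplicial `4`-polytope on `54` vertices whose
boundary contains a `3`-ball `B` with an edge path `p - m - q`, `m` interior, `p`, `q` in `∂B`,
that is knotted in `B`, and glue many further copies of `B` to the boundary of the polytope, all
along `∂B`.
-/

set_option autoImplicit false

namespace Pool.Agent.Results.MP_cf6e1a_co.NonShellable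

open Pool.Agent.X161.CE Pool.Agent.Helper175.NS

/-- There is a three-dimensional simplicial complex that admits a convex ear decomposition (whose
ears are balls in boundaries of simplicial `4`-polytopes) and is not shellable. -/
theorem result : ∃ (V : Type) (Δ : Cx V), ConvexEar 4 Δ ∧ ¬ Δ.Shellable := by
  obtain ⟨Δ, h⟩ := final (Rs := Data.Rs) (Xs := Data.Xs) (tm := Data.tm) (Am := Data.Am)
    (Im := Data.Im) (N := Data.NN) (M := Data.MM) (km := Data.km) (em := Data.em)
    (r := Data.rr) (t := Data.tt) (l1 := Data.l1) (l2 := Data.l2) (ms := Data.ms)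
    (by decide) (by decide) (List.cons_ne_nil _ _) Data.c1 Data.c2 Data.c3 Data.c4 Data.c5 Data.c6
    Data.c7 Data.c8 Data.c9 Data.p1 Data.p2 Data.p3 Data.p4 Data.p5 Data.q1 Data.q2 Data.q3
  exact ⟨ℕ, Δ, h⟩

end Pool.Agent.Results.MP_cf6e1a_co.NonShellable
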